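import Mathlib
import Pool.Agent.K3h75.ND.StmN

/-!
# The elimination (brick E2)
-/

set_option autoImplicit false

namespace Pool.Agent.K3h92.ND

open MvPolynomial Pool.Agent.K3h75.ND

/-- `form` commutes with ring homomorphisms. -/
theorem map_form {N d : ℕ} {R S : Type} [CommRing R] [CommRing S] (φ : R →+* S)
    (a : Mon N d → R) : MvPolynomial.map φ (form a) = form (fun m => φ (a m)) := by
  simp only [form, map_sum, map_monomial]

/-- `pform` commutes with ring homomorphisms. -/
theorem map_pform {N d : ℕ} {R S : Type} [CommRing R] [CommRing S] (φ : R →+* S)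
    (b : Idx N d → R) (c : R) :
    MvPolynomial.map φ (pform b c) = pform (fun m => φ (b m)) (φ c) := by
  rw [pform, map_form, pform]
  congr 1
  funext m
  unfold pcoef
  rw [map_add]
  congr 1
  · split_ifs <;> simp
  · split_ifs <;> simp

/-- The values of polynomials commute with ring homomorphisms. -/
theorem map_eval' {N : ℕ} {R S : Type} [CommRing R] [CommRing S] (φ : R →+* S)
    (G : MvPolynomial (Fin N) R) (x : Fin N → R) :
    φ (eval x G) = eval (fun j => φ (x j)) (MvPolynomial.map φ G) := by
  rw [eval_map]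
  exact eval₂_comp φ x G

/-- The Hessian determinant commutes with ring homomorphisms. -/
theorem map_hdet {N : ℕ} {R S : Type} [CommRing R] [CommRing S] (φ : R →+* S)
    (G : MvPolynomial (Fin N) R) (s : Fin N) (x : Fin N → R) :
    φ (hdet G s x) = hdet (MvPolynomial.map φ G) s (fun j => φ (x j)) := by
  unfold hdet
  rw [RingHom.map_det]
  congr 1
  ext i j
  simp only [RingHom.mapMatrix_apply, Matrix.map_apply, Matrix.of_apply]
  rw [map_eval', pderiv_map, pderiv_map]

/-- The generic form. -/
noncomputable def gform (N d : ℕ) : MvPolynomial (Fin (N + 1))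
    (MvPolynomial (Option (Fin (N + 1))) (MvPolynomial (Idx N d) ℤ)) :=
  pform (fun m => C (X m)) (X none)

/-- The ideal of the degenerate singular points with `x s = 1`. -/
noncomputable def J (N d : ℕ) (s : Fin (N + 1)) :
    Ideal (MvPolynomial (Option (Fin (N + 1))) (MvPolynomial (Idx N d) ℤ)) :=
  Ideal.span ({X (some s) - 1} ∪
    Set.range (fun i => eval (fun j => X (some j)) (pderiv i (gform N d))) ∪
    {hdet (gform N d) s (fun j => X (some j))})

theorem mem1 (N d : ℕ) (s : Fin (N + 1)) : X (some s) - 1 ∈ J N d s :=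
  Ideal.subset_span (Or.inl (Or.inl rfl))

theorem mem2 (N d : ℕ) (s : Fin (N + 1)) (i : Fin (N + 1)) :
    eval (fun j => X (some j)) (pderiv i (gform N d)) ∈ J N d s :=
  Ideal.subset_span (Or.inl (Or.inr ⟨i, rfl⟩))

theorem mem3 (N d : ℕ) (s : Fin (N + 1)) :
    hdet (gform N d) s (fun j => X (some j)) ∈ J N d s :=
  Ideal.subset_span (Or.inr rfl)

/-- The images of the generators. -/
theorem img2 {N d : ℕ} {L : Type} [CommRing L]
    (φ : MvPolynomial (Option (Fin (N + 1))) (MvPolynomial (Idx N d) ℤ) →+* L)
    (i : Fin (N + 1)) :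
    φ (eval (fun j => X (some j)) (pderiv i (gform N d))) =
      eval (fun j => φ (X (some j)))
        (pderiv i (pform (fun m => φ (C (X m))) (φ (X none)))) := by
  rw [map_eval', ← pderiv_map, gform, map_pform]

theorem img3 {N d : ℕ} {L : Type} [CommRing L]
    (φ : MvPolynomial (Option (Fin (N + 1))) (MvPolynomial (Idx N d) ℤ) →+* L)
    (s : Fin (N + 1)) :
    φ (hdet (gform N d) s (fun j => X (some j))) =
      hdet (pform (fun m => φ (C (X m))) (φ (X none))) s (fun j => φ (X (some j))) := by
  rw [map_hdet, gform, map_pform]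

/-- Elimination for one `s`. -/
theorem exists_delta (hG : S_GND) (N d : ℕ) (hd : 2 ≤ d) (s : Fin (N + 1)) :
    ∃ Δ : MvPolynomial (Idx N d) ℤ, Δ ≠ 0 ∧ C Δ ∈ J N d s := by
  classical
  set B := MvPolynomial (Idx N d) ℤ with hB
  set K := FractionRing B with hK
  let _ : Algebra (MvPolynomial (Option (Fin (N + 1))) B)
    (MvPolynomial (Option (Fin (N + 1))) K) := MvPolynomial.algebraMvPolynomial
  by_cases htop : (J N d s).map (algebraMap (MvPolynomial (Option (Fin (N + 1))) B)
      (MvPolynomial (Option (Fin (N + 1))) K)) = ⊤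
  · have h1 : (1 : MvPolynomial (Option (Fin (N + 1))) K) ∈
        (J N d s).map (algebraMap (MvPolynomial (Option (Fin (N + 1))) B)
          (MvPolynomial (Option (Fin (N + 1))) K)) := by
      rw [htop]; trivial
    rw [IsLocalization.mem_map_algebraMap_iff ((nonZeroDivisors B).map
      (C (σ := Option (Fin (N + 1)))))] at h1
    obtain ⟨⟨a, m⟩, h2⟩ := h1
    obtain ⟨m, Δ, hΔ, rfl⟩ := m
    refine ⟨Δ, nonZeroDivisors.ne_zero hΔ, ?_⟩
    rw [one_mul] at h2
    have hinj : Function.Injective (algebraMap (MvPolynomial (Option (Fin (N + 1))) B)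
      (MvPolynomial (Option (Fin (N + 1))) K)) :=
      MvPolynomial.map_injective _ (IsFractionRing.injective B K)
    have h3 := hinj h2
    have h4 : (C Δ : MvPolynomial (Option (Fin (N + 1))) B) = a.1 := h3
    rw [h4]
    exact a.2
  · exfalso
    obtain ⟨m, hm, hle⟩ := Ideal.exists_le_maximal _ htop
    let _ : Field (MvPolynomial (Option (Fin (N + 1))) K ⧸ m) := Ideal.Quotient.field m
    have hfin : Module.Finite K (MvPolynomial (Option (Fin (N + 1))) K ⧸ m) :=
      finite_of_finite_type_of_isJacobsonRing K _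
    have halg : Algebra.IsAlgebraic K (MvPolynomial (Option (Fin (N + 1))) K ⧸ m) :=
      Algebra.IsAlgebraic.of_finite K _
    set φ : MvPolynomial (Option (Fin (N + 1))) B →+*
      (MvPolynomial (Option (Fin (N + 1))) K ⧸ m) :=
      (Ideal.Quotient.mk m).comp (algebraMap (MvPolynomial (Option (Fin (N + 1))) B)
        (MvPolynomial (Option (Fin (N + 1))) K)) with hφ
    have hker : ∀ a ∈ J N d s, φ a = 0 := by
      intro a ha
      rw [hφ, RingHom.comp_apply, Ideal.Quotient.eq_zero_iff_mem]
      exact hle (Ideal.mem_map_of_mem _ ha)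
    have hC : ∀ i : Idx N d, φ (C (X i)) =
        algebraMap K (MvPolynomial (Option (Fin (N + 1))) K ⧸ m) (algebraMap B K (X i)) := by
      intro i
      rw [hφ, RingHom.comp_apply]
      have : (algebraMap (MvPolynomial (Option (Fin (N + 1))) B)
        (MvPolynomial (Option (Fin (N + 1))) K)) (C (X i)) = C (algebraMap B K (X i)) :=
        MvPolynomial.map_C _ _
      rw [this]
      rfl
    refine hG N d hd (MvPolynomial (Option (Fin (N + 1))) K ⧸ m) (φ (X none))
      (fun j => φ (X (some j))) s ?_ ?_ ?_
    · have := hker _ (mem1 N d s)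
      rw [map_sub, map_one, sub_eq_zero] at this
      exact this
    · intro i
      have := hker _ (mem2 N d s i)
      rw [img2] at this
      simp only [hC] at this
      exact this
    · have := hker _ (mem3 N d s)
      rw [img3] at this
      simp only [hC] at this
      exact this

/-- **E2**. -/
theorem t_E2 (hG : S_GND) : S_E2 := by
  intro N d hd
  choose Δ hΔ hmem using exists_delta hG N d hd
  refine ⟨∏ s, Δ s, Finset.prod_ne_zero_iff.mpr fun s _ => hΔ s, ?_⟩
  intro k _ b c x s hs hsing hdeg
  set ψ : MvPolynomial (Option (Fin (N + 1))) (MvPolynomial (Idx N d) ℤ) →+* k :=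
    eval₂Hom (eval₂Hom (Int.castRingHom k) b) (fun o => o.elim c x) with hψ
  have hC : ∀ i : Idx N d, ψ (C (X i)) = b i := by
    intro i
    simp [hψ]
  have hX : ∀ j, ψ (X (some j)) = x j := by
    intro i
    simp [hψ]
  have hX0 : ψ (X none) = c := by
    simp [hψ]
  have hker : ∀ a ∈ J N d s, ψ a = 0 := by
    intro a ha
    have : J N d s ≤ RingHom.ker ψ := by
      refine Ideal.span_le.mpr ?_
      rintro y ((rfl | ⟨i, rfl⟩) | rfl)
      · show ψ _ = 0
        rw [map_sub, map_one, hX, hs, sub_self]
      · show ψ _ = 0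
        rw [img2]
        simp only [hC, hX, hX0]
        exact hsing i
      · show ψ _ = 0
        rw [img3]
        simp only [hC, hX, hX0]
        exact hdeg
    exact this ha
  have h1 := hker _ (hmem s)
  have h2 : eval₂ (Int.castRingHom k) b (Δ s) = 0 := by
    have : ψ (C (Δ s)) = eval₂ (Int.castRingHom k) b (Δ s) := by
      simp [hψ]
    rw [← this, h1]
  rw [← Finset.mul_prod_erase Finset.univ Δ (Finset.mem_univ s), eval₂_mul, h2, zero_mul]

end Pool.Agent.K3h92.ND
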